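import Pool.Agent.PRT.StmtsC

set_option autoImplicit false

namespace Pool.Agent.PRT.H23B

open Set MeasureTheory
open scoped ContDiff

theorem norm_jj (a : E) : ‖jj a‖ = ‖a‖ := by
  simp only [jj, Prod.norm_def, norm_neg]
  rw [max_comm]

theorem ip_ge (a : E) : ‖a‖ ^ 2 ≤ ip a a := by
  unfold ip
  rw [Prod.norm_def]
  rcases le_total ‖a.1‖ ‖a.2‖ with h | h
  · rw [max_eq_right h, Real.norm_eq_abs, sq_abs]
    nlinarith [sq_nonneg a.1]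
  · rw [max_eq_left h, Real.norm_eq_abs, sq_abs]
    nlinarith [sq_nonneg a.2]

theorem cr_e2 {a : E} (ha : 0 < ip a a) : cr a (e2 a) = 1 := by
  unfold e2
  rw [cr_smul_right]
  have h : cr a (jj a) = ip a a := by
    unfold cr jj ip
    simp
  rw [h, inv_mul_cancel₀ ha.ne']

/-- bounds for the second basis vector -/
theorem e2_bounds {a : E} {K : ℝ} (hK : 0 < K) (h : 1 ≤ ‖a‖ * K) :
    0 < ip a a ∧ (ip a a)⁻¹ ≤ K ^ 2 ∧ ‖e2 a‖ ≤ K := by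
  have hn : 0 < ‖a‖ := by
    rcases (norm_nonneg a).lt_or_eq with h1 | h1
    · exact h1
    · rw [← h1, zero_mul] at h
      linarith
  have hip : 0 < ip a a := lt_of_lt_of_le (by positivity) (ip_ge a)
  have h2 : (ip a a)⁻¹ ≤ (‖a‖ ^ 2)⁻¹ := inv_anti₀ (by positivity) (ip_ge a)
  have h3 : ‖a‖⁻¹ ≤ K := by
    rw [inv_le_iff_one_le_mul₀ hn]
    linarith [mul_comm K ‖a‖]
  refine ⟨hip, ?_, ?_⟩
  · refine h2.trans ?_
    rw [← inv_pow]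
    exact pow_le_pow_left₀ (by positivity) h3 2
  · unfold e2
    rw [norm_smul, norm_jj, norm_inv, Real.norm_eq_abs, abs_of_pos hip]
    calc (ip a a)⁻¹ * ‖a‖ ≤ (‖a‖ ^ 2)⁻¹ * ‖a‖ := by gcongr
      _ = ‖a‖⁻¹ := by field_simp
      _ ≤ K := h3

theorem cramer (p e u : E) : cr p e • u = cr u e • p + cr p u • e := by
  ext
  · simp only [cr, Prod.smul_fst, Prod.fst_add, smul_eq_mul]
    ring
  · simp only [cr, Prod.smul_snd, Prod.snd_add, smul_eq_mul]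
    ring

theorem cr_jj (a b : E) : cr (jj a) (jj b) = cr a b := by
  unfold cr jj
  ring

theorem cr_e2_e2 (a b : E) : cr (e2 a) (e2 b) = (ip a a)⁻¹ * ((ip b b)⁻¹ * cr a (b - a)) := by
  unfold e2
  rw [cr_smul_left, cr_smul_right, cr_jj]
  congr 2
  unfold cr
  simp only [Prod.fst_sub, Prod.snd_sub]
  ring

/-- Taylor bounds -/
theorem taylor {φ : E → E} (hs : ContDiff ℝ ∞ φ) {a1 a2 : ℝ} (h1 : ∀ z, ‖fderiv ℝ φ z‖ ≤ a1)
    (h2 : ∀ z, ‖iteratedFDeriv ℝ 2 φ z‖ ≤ a2) (z p : E) :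
    ‖φ (z + p) - φ z‖ ≤ a1 * ‖p‖ ∧ ‖φ (z + p) - φ z - fderiv ℝ φ z p‖ ≤ a2 * ‖p‖ * ‖p‖ := by
  have hd : Differentiable ℝ φ := hs.differentiable (by simp)
  have hs' : ContDiff ℝ ∞ (fderiv ℝ φ) := hs.fderiv_right (by simp)
  have hd' : Differentiable ℝ (fderiv ℝ φ) := hs'.differentiable (by simp)
  have h2' : ∀ z, ‖fderiv ℝ (fderiv ℝ φ) z‖ ≤ a2 := by
    intro z
    have h3 := h2 z
    rw [show (2 : ℕ) = 1 + 1 from rfl, ← norm_iteratedFDeriv_fderiv,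
      show (1 : ℕ) = 0 + 1 from rfl, ← norm_iteratedFDeriv_fderiv, norm_iteratedFDeriv_zero] at h3
    exact h3
  constructor
  · have h4 := convex_univ.norm_image_sub_le_of_norm_fderiv_le (𝕜 := ℝ) (f := φ) (C := a1)
      (fun x _ => hd x) (fun x _ => h1 x) (mem_univ z) (mem_univ (z + p))
    rwa [add_sub_cancel_left] at h4
  · have ha2 : 0 ≤ a2 := (norm_nonneg (iteratedFDeriv ℝ 2 φ z)).trans (h2 z)
    have h5 : ∀ x ∈ Metric.closedBall z ‖p‖, ‖fderiv ℝ φ x - fderiv ℝ φ z‖ ≤ a2 * ‖p‖ := by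
      intro x hx
      have h6 := convex_univ.norm_image_sub_le_of_norm_fderiv_le (𝕜 := ℝ) (f := fderiv ℝ φ)
        (C := a2) (fun x _ => hd' x) (fun x _ => h2' x) (mem_univ z) (mem_univ x)
      rw [mem_closedBall_iff_norm] at hx
      exact h6.trans (mul_le_mul_of_nonneg_left hx ha2)
    have h7 := (convex_closedBall z ‖p‖).norm_image_sub_le_of_norm_fderiv_le' (𝕜 := ℝ) (f := φ)
      (fun x _ => hd x) h5 (x := z) (y := z + p) (by simp) (by simp [mem_closedBall_iff_norm])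
    rwa [add_sub_cancel_left] at h7

/-- the numerical part -/
theorem numeric {ε l x y : ℝ} (hε : 0 < ε) (hl : 2 ≤ l) :
    2 * (ε ^ 3 * l ^ 26) * (2 * (|x| * (ε * l ^ 8) + |y| * (l ^ 68 / ε))) ≤
      ε ^ 4 * l ^ 40 * |x| + ε ^ 2 * l ^ 100 * |y| ∧
    |x| * (2 * (ε ^ 3 * l ^ 26) * (l ^ 68 / ε)) + |y| * (2 * (ε * l ^ 9 * (l ^ 68 / ε)) *
      (l ^ 68 / ε) + (l ^ 68 / ε) ^ 2 * ((l ^ 68 / ε) ^ 2 * (2 * (ε * l ^ 8) *
        (ε * l ^ 9 * (ε * l ^ 8))))) ≤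
      ε ^ 2 * l ^ 100 * |x| + ε⁻¹ * l ^ 300 * |y| := by
  have hl0 : 0 < l := by linarith
  have hx := abs_nonneg x
  have hy := abs_nonneg y
  have h3 : (8 : ℝ) ≤ l ^ 3 := by
    calc (8 : ℝ) = 2 ^ 3 := by norm_num
      _ ≤ l ^ 3 := by gcongr
  have h6 : (4 : ℝ) ≤ l ^ 6 := by
    calc (4 : ℝ) ≤ 2 ^ 6 := by norm_num
      _ ≤ l ^ 6 := by gcongr
  constructor
  · have e1 : 2 * (ε ^ 3 * l ^ 26) * (2 * (|x| * (ε * l ^ 8) + |y| * (l ^ 68 / ε))) =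
        4 * (ε ^ 4 * l ^ 34 * |x|) + 4 * (ε ^ 2 * l ^ 94 * |y|) := by
      field_simp
      ring
    have e2 : ε ^ 4 * l ^ 40 * |x| + ε ^ 2 * l ^ 100 * |y| =
        l ^ 6 * (ε ^ 4 * l ^ 34 * |x|) + l ^ 6 * (ε ^ 2 * l ^ 94 * |y|) := by ring
    rw [e1, e2]
    gcongr
  · have e1 : |x| * (2 * (ε ^ 3 * l ^ 26) * (l ^ 68 / ε)) + |y| * (2 * (ε * l ^ 9 *
        (l ^ 68 / ε)) * (l ^ 68 / ε) + (l ^ 68 / ε) ^ 2 * ((l ^ 68 / ε) ^ 2 * (2 * (ε * l ^ 8) *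
        (ε * l ^ 9 * (ε * l ^ 8))))) =
        2 * (ε ^ 2 * l ^ 94 * |x|) + (2 * l ^ 145 + 2 * l ^ 297) * (ε⁻¹ * |y|) := by
      field_simp
    have e2 : ε ^ 2 * l ^ 100 * |x| + ε⁻¹ * l ^ 300 * |y| =
        l ^ 6 * (ε ^ 2 * l ^ 94 * |x|) + l ^ 300 * (ε⁻¹ * |y|) := by ring
    have h7 : 2 * l ^ 145 + 2 * l ^ 297 ≤ l ^ 300 := by
      have h8 : l ^ 145 ≤ l ^ 297 := pow_le_pow_right₀ (by linarith) (by norm_num)
      have h9 : (0 : ℝ) < l ^ 297 := by positivity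
      have h10 : l ^ 300 = l ^ 3 * l ^ 297 := by ring
      rw [h10]
      nlinarith
    have h2 : (2 : ℝ) ≤ l ^ 6 := by linarith
    rw [e1, e2]
    gcongr

theorem bas : BasStmt := by
  refine ⟨2, ?_⟩
  intro g v C l N hl hN hNr hlow z u
  have hl0 : 0 < l := by linarith
  have hε : 0 < ‖v‖ := hNr.v0
  obtain ⟨φ, hφ⟩ : ∃ φ : E → E, φ = fun z => g z - z := ⟨_, rfl⟩
  have hgs : ContDiff ℝ ∞ g := hNr.lf.sm
  have hφs : ContDiff ℝ ∞ φ := by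
    rw [hφ]
    exact hgs.sub contDiff_id
  have hgd : Differentiable ℝ g := hgs.differentiable (by simp)
  have hb0 : ∀ z, ‖φ z‖ ≤ ‖v‖ * l ^ 8 := by
    intro z
    have h := hNr.bd 0 (by norm_num) z
    rw [norm_iteratedFDeriv_zero] at h
    rw [hφ]
    exact h
  have hb1 : ∀ z, ‖fderiv ℝ φ z‖ ≤ ‖v‖ * l ^ 9 := by
    intro z
    have h := hNr.bd 1 (by norm_num) z
    rw [show (1 : ℕ) = 0 + 1 from rfl, ← norm_iteratedFDeriv_fderiv,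
      norm_iteratedFDeriv_zero] at h
    rw [hφ]
    exact h
  have hb2 : ∀ z, ‖iteratedFDeriv ℝ 2 φ z‖ ≤ ‖v‖ * l ^ 10 := by
    intro z
    have h := hNr.bd 2 le_rfl z
    rw [hφ]
    exact h
  -- ‖v‖ l^9 ≤ 1
  have hsmall : ‖v‖ * l ^ 9 ≤ 1 := by
    rw [← hNr.lN]
    have : l ^ 9 ≤ l ^ (2 * N) := pow_le_pow_right₀ hNr.l1 (by omega)
    gcongr
  obtain ⟨p, hp⟩ : ∃ p : E, p = g z - z := ⟨_, rfl⟩
  obtain ⟨p', hp'⟩ : ∃ p' : E, p' = g (g z) - g z := ⟨_, rfl⟩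
  have hpφ : φ z = p := by rw [hφ, hp]
  have hpφ' : φ (z + p) = p' := by
    rw [hφ, hp, hp']
    simp only [add_sub_cancel]
  rw [← hp, ← hp']
  obtain ⟨K, hK⟩ : ∃ K : ℝ, K = l ^ 68 / ‖v‖ := ⟨_, rfl⟩
  have hKpos : 0 < K := by rw [hK]; positivity
  have hlow' : ∀ z, 1 ≤ ‖g z - z‖ * K := by
    intro z
    have h := hlow z
    rw [hK, mul_div_assoc', le_div_iff₀ hε]
    linarith
  obtain ⟨hip, hipK, heK⟩ := e2_bounds hKpos (by rw [hp]; exact hlow' z : 1 ≤ ‖p‖ * K)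
  obtain ⟨hip', hipK', heK'⟩ := e2_bounds hKpos (by rw [hp']; exact hlow' (g z) : 1 ≤ ‖p'‖ * K)
  have hpn : ‖p‖ ≤ ‖v‖ * l ^ 8 := by rw [← hpφ]; exact hb0 z
  obtain ⟨ht1, ht2⟩ := taylor hφs hb1 hb2 z p
  rw [hpφ', hpφ] at ht1 ht2
  -- the derivative
  have hA : fderiv ℝ g z = ContinuousLinearMap.id ℝ E + fderiv ℝ φ z := by
    have h : fderiv ℝ φ z = fderiv ℝ g z - ContinuousLinearMap.id ℝ E := by
      rw [hφ]
      exact (HasFDerivAt.sub (hgd z).hasFDerivAt (hasFDerivAt_id z)).fderiv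
    rw [h]
    abel
  obtain ⟨A, hAd⟩ : ∃ A : E →L[ℝ] E, A = fderiv ℝ g z := ⟨_, rfl⟩
  obtain ⟨B, hBd⟩ : ∃ B : E →L[ℝ] E, B = fderiv ℝ φ z := ⟨_, rfl⟩
  have hAu : ∀ u, A u = u + B u := by
    intro u
    rw [hAd, hA, hBd]
    simp
  have hBn : ‖B‖ ≤ ‖v‖ * l ^ 9 := by rw [hBd]; exact hb1 z
  have hBu : ∀ u, ‖B u‖ ≤ ‖v‖ * l ^ 9 * ‖u‖ := by
    intro u
    exact (B.le_opNorm u).trans (mul_le_mul_of_nonneg_right hBn (norm_nonneg u))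
  have hAn : ∀ u, ‖A u‖ ≤ 2 * ‖u‖ := by
    intro u
    rw [hAu]
    have h := hBu u
    have h' : ‖v‖ * l ^ 9 * ‖u‖ ≤ 1 * ‖u‖ := mul_le_mul_of_nonneg_right hsmall (norm_nonneg u)
    have h'' := norm_add_le u (B u)
    linarith
  have hdet : A.det = 1 := by rw [hAd]; exact hNr.lf.det z
  have hcr : ∀ a b, cr (A a) (A b) = cr a b := by
    intro a b
    rw [cr_map, hdet, one_mul]
  rw [← hAd]
  rw [← hBd] at ht2
  obtain ⟨ρ, hρ⟩ : ∃ ρ : E, ρ = p' - A p := ⟨_, rfl⟩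
  have hρn : ‖ρ‖ ≤ ‖v‖ ^ 3 * l ^ 26 := by
    have h : ρ = p' - p - B p := by
      rw [hρ, hAu]
      abel
    rw [h]
    refine ht2.trans ?_
    calc ‖v‖ * l ^ 10 * ‖p‖ * ‖p‖ ≤ ‖v‖ * l ^ 10 * (‖v‖ * l ^ 8) * (‖v‖ * l ^ 8) := by gcongr
      _ = ‖v‖ ^ 3 * l ^ 26 := by ring
  have hp'ρ : p' = A p + ρ := by
    rw [hρ]
    abel
  obtain ⟨e, he⟩ : ∃ e : E, e = e2 p := ⟨_, rfl⟩
  obtain ⟨e', he'⟩ : ∃ e' : E, e' = e2 p' := ⟨_, rfl⟩
  have hce : cr p e = 1 := by rw [he]; exact cr_e2 hip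
  have hce' : cr p' e' = 1 := by rw [he']; exact cr_e2 hip'
  have hcee : cr e e' = (ip p p)⁻¹ * ((ip p' p')⁻¹ * cr p (p' - p)) := by
    rw [he, he']
    exact cr_e2_e2 p p'
  rw [← he, ← he']
  rw [← he] at heK
  rw [← he'] at heK'
  obtain ⟨x, hx⟩ : ∃ x : ℝ, x = cr u e := ⟨_, rfl⟩
  obtain ⟨y, hy⟩ : ∃ y : ℝ, y = cr p u := ⟨_, rfl⟩
  have hu : u = x • p + y • e := by
    have h := cramer p e u
    rw [hce, one_smul, ← hx, ← hy] at h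
    exact h
  have hun : ‖u‖ ≤ |x| * (‖v‖ * l ^ 8) + |y| * K := by
    calc ‖u‖ = ‖x • p + y • e‖ := by rw [← hu]
      _ ≤ ‖x • p‖ + ‖y • e‖ := norm_add_le _ _
      _ = |x| * ‖p‖ + |y| * ‖e‖ := by rw [norm_smul, norm_smul, Real.norm_eq_abs, Real.norm_eq_abs]
      _ ≤ |x| * (‖v‖ * l ^ 8) + |y| * K := by gcongr
  obtain ⟨hn2, hn1⟩ := numeric (x := x) (y := y) hε hl
  rw [← hK] at hn1 hn2
  constructor
  · -- first coordinate
    have h1 : cr (A u) e' - cr u e = x * (- cr ρ e') + y * (cr e e' + cr (B e) e') := by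
      have h2 : A u = x • (p' - ρ) + y • (e + B e) := by
        have h3 : A u = x • A p + y • A e := by
          rw [← map_smul, ← map_smul, ← map_add, ← hu]
        rw [h3, hAu e, hp'ρ]
        congr 2
        abel
      rw [h2, ← hx]
      have h4 : cr (p' - ρ) e' = cr p' e' - cr ρ e' := by
        unfold cr
        simp only [Prod.fst_sub, Prod.snd_sub]
        ring
      rw [cr_add_left, cr_smul_left, cr_smul_left, cr_add_left, h4, hce']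
      ring
    rw [h1, ← hx, ← hy]
    refine le_trans ?_ hn1
    have h5 : |cr ρ e'| ≤ 2 * (‖v‖ ^ 3 * l ^ 26) * K := by
      refine (abs_cr_le ρ e').trans ?_
      gcongr
    have h6 : |cr (B e) e'| ≤ 2 * (‖v‖ * l ^ 9 * K) * K := by
      refine (abs_cr_le (B e) e').trans ?_
      have h7 : ‖B e‖ ≤ ‖v‖ * l ^ 9 * K := (hBu e).trans (by gcongr)
      gcongr
    have h8 : |cr e e'| ≤ K ^ 2 * (K ^ 2 * (2 * (‖v‖ * l ^ 8) * (‖v‖ * l ^ 9 * (‖v‖ * l ^ 8)))) := by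
      rw [hcee, abs_mul, abs_mul, abs_of_pos (inv_pos.2 hip), abs_of_pos (inv_pos.2 hip')]
      have h9 : |cr p (p' - p)| ≤ 2 * (‖v‖ * l ^ 8) * (‖v‖ * l ^ 9 * (‖v‖ * l ^ 8)) := by
        refine (abs_cr_le p (p' - p)).trans ?_
        have h10 : ‖p' - p‖ ≤ ‖v‖ * l ^ 9 * (‖v‖ * l ^ 8) := ht1.trans (by gcongr)
        gcongr
      gcongr
    calc |x * (- cr ρ e') + y * (cr e e' + cr (B e) e')|
        ≤ |x * (- cr ρ e')| + |y * (cr e e' + cr (B e) e')| := abs_add_le _ _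
      _ = |x| * |cr ρ e'| + |y| * |cr e e' + cr (B e) e'| := by rw [abs_mul, abs_mul, abs_neg]
      _ ≤ |x| * |cr ρ e'| + |y| * (|cr (B e) e'| + |cr e e'|) := by
          have := abs_add_le (cr e e') (cr (B e) e')
          have hy0 := abs_nonneg y
          nlinarith
      _ ≤ _ := by gcongr
  · -- second coordinate
    have h1 : cr p' (A u) - cr p u = cr ρ (A u) := by
      rw [hp'ρ, cr_add_left, hcr]
      ring
    rw [h1, ← hx, ← hy]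
    refine le_trans ?_ hn2
    refine (abs_cr_le ρ (A u)).trans ?_
    have h2 : ‖A u‖ ≤ 2 * (|x| * (‖v‖ * l ^ 8) + |y| * K) := (hAn u).trans (by gcongr)
    gcongr

end Pool.Agent.PRT.H23B
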