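import Pool.Agent.PRT.StmtsB

set_option autoImplicit false

namespace Pool.Agent.PRT.H23

open Set MeasureTheory
open scoped ContDiff

theorem volQ : (volume : Measure E) Q = 1 := by
  unfold Q
  rw [Measure.volume_eq_prod, Measure.prod_prod]
  simp

theorem compQ : IsCompact Q := isCompact_Icc.prod isCompact_Icc

theorem eqvIter {g : E → E} (h : Eqv g) (j : ℕ) : Eqv (g^[j]) := by
  induction j with
  | zero => intro a b z; rfl
  | succ j ih =>
    intro a b z
    rw [Function.iterate_succ_apply', Function.iterate_succ_apply', ih, h]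

theorem intOn {f : E → E} (hf : Continuous f) : IntegrableOn f Q volume :=
  hf.continuousOn.integrableOn_compact compQ

theorem mea (h1 : MspStmt) : MeaStmt := by
  intro g v C hg
  have hgc : Continuous g := hg.sm.continuous
  obtain ⟨φ, hφ⟩ : ∃ φ : E → E, φ = fun z => g z - z := ⟨_, rfl⟩
  have hφc : Continuous φ := by
    rw [hφ]
    exact hgc.sub continuous_id
  have hper : ∀ j, Per (fun z => φ (g^[j] z)) := by
    intro j a b z
    simp only [hφ]
    rw [eqvIter hg.eqv j, hg.eqv]
    abel
  have hit : ∀ j, Continuous (g^[j]) := fun j => hgc.iterate j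
  have hd : ∀ m, IntegrableOn (fun z => g^[m] z - z) Q volume := fun m =>
    intOn (f := fun z => g^[m] z - z) ((hit m).sub continuous_id)
  have hp : ∀ m, IntegrableOn (fun z => φ (g^[m] z)) Q volume := fun m =>
    intOn (f := fun z => φ (g^[m] z)) (hφc.comp (hit m))
  have hI : ∀ j, ∫ z in Q, φ (g^[j] z) = ∫ z in Q, φ z := by
    intro j
    induction j with
    | zero => rfl
    | succ j ih =>
      rw [← ih, ← h1 g v C hg (fun z => φ (g^[j] z)) (hφc.comp (hit j)) (hper j)]
      rfl
  have hsum : ∀ m : ℕ, ∫ z in Q, (g^[m] z - z) = (m : ℝ) • ∫ z in Q, φ z := by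
    intro m
    induction m with
    | zero => simp
    | succ m ih =>
      have h2 : ∀ z, g^[m + 1] z - z = (g^[m] z - z) + φ (g^[m] z) := by
        intro z
        rw [Function.iterate_succ_apply', hφ]
        simp only
        abel
      simp only [h2]
      rw [integral_add (hd m) (hp m), ih, hI m]
      push_cast
      rw [add_smul, one_smul]
  have hvolr : (volume : Measure E).real Q = 1 := by
    rw [Measure.real, volQ]
    simp
  have hbound : ∀ m : ℕ, ‖(m : ℝ) • ((∫ z in Q, φ z) - v)‖ ≤ C := by
    intro m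
    have h3 : (m : ℝ) • ((∫ z in Q, φ z) - v) = ∫ z in Q, (g^[m] z - z - (m : ℝ) • v) := by
      rw [integral_sub (hd m) (intOn continuous_const), hsum m,
        setIntegral_const, hvolr, one_smul, smul_sub]
    rw [h3]
    have h4 := norm_setIntegral_le_of_norm_le_const (μ := (volume : Measure E)) (s := Q)
      (f := fun z => g^[m] z - z - (m : ℝ) • v) (C := C) (by rw [volQ]; exact ENNReal.one_lt_top)
      (fun z _ => hg.dev m z)
    rw [hvolr, mul_one] at h4
    exact h4
  have hfin : (∫ z in Q, φ z) - v = 0 := by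
    by_contra hne
    have hpos : 0 < ‖(∫ z in Q, φ z) - v‖ := norm_pos_iff.2 hne
    obtain ⟨m, hm⟩ := exists_nat_gt (C / ‖(∫ z in Q, φ z) - v‖)
    have h5 := hbound m
    rw [norm_smul, Real.norm_eq_abs, Nat.abs_cast] at h5
    rw [div_lt_iff₀ hpos] at hm
    linarith
  have h6 := sub_eq_zero.1 hfin
  rw [hφ] at h6
  exact h6

end Pool.Agent.PRT.H23
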